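import Mathlib

set_option autoImplicit false

open Set

namespace Pool.Agent.H.MP_93c42a_an

variable {Z : Type*} [NormedAddCommGroup Z] [NormedSpace ℝ Z]

theorem seq (h : ¬FiniteDimensional ℝ Z) : ∃ e : ℕ → Z, (∀ n, ‖e n‖ = 1) ∧
    ∀ n, ∀ y ∈ Submodule.span ℝ (e '' Iio n), 1 / 2 ≤ ‖e n - y‖ := by
  classical
  have : ∀ s : Finset Z, ∃ x, ‖x‖ = 1 ∧ ∀ y ∈ Submodule.span ℝ (s : Set Z), 1 / 2 ≤ ‖x - y‖ := by
    intro s
    obtain ⟨x, -, hx⟩ := riesz_lemma_of_lt_one (F := Submodule.span ℝ (s : Set Z))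
      (Submodule.closed_of_finiteDimensional _) (by
        by_contra hh
        push Not at hh
        exact h ⟨⟨s, eq_top_iff.2 fun x _ => hh x⟩⟩) (r := 1 / 2) (by norm_num)
    exact ⟨x, hx⟩
  choose c h1 h2 using this
  let S : ℕ → Finset Z := fun n => Nat.rec ∅ (fun _ s => insert (c s) s) n
  have hS : ∀ n, ∀ m < n, c (S m) ∈ S n := by
    intro n
    induction n with
    | zero => simp
    | succ n ih =>
      intro m hm
      rcases (Nat.le_of_lt_succ hm).eq_or_lt with rfl | hm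
      · exact Finset.mem_insert_self _ _
      · exact Finset.mem_insert_of_mem (ih m hm)
  refine ⟨fun n => c (S n), fun n => h1 _, fun n y hy => h2 _ y (Submodule.span_mono ?_ hy)⟩
  rintro _ ⟨m, hm, rfl⟩
  exact hS n m hm

theorem coef {e : ℕ → Z} (h1 : ∀ n, ‖e n‖ = 1)
    (h2 : ∀ n, ∀ y ∈ Submodule.span ℝ (e '' Iio n), 1 / 2 ≤ ‖e n - y‖) (c : ℕ →₀ ℝ) :
    ∀ n, |c n| ≤ 3 ^ c.support.card * ‖Finsupp.linearCombination ℝ e c‖ := by
  induction c using Finsupp.induction_on_max with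
  | zero => simp
  | single_add N b c hc hb ih =>
    intro n
    have hN : N ∉ c.support := fun h => lt_irrefl _ (hc N h)
    have e1 : (Finsupp.single N b + c).support.card = c.support.card + 1 := by
      rw [Finsupp.support_single_add hN hb, Finset.card_cons]
    have e2 := h2 N (-b⁻¹ • Finsupp.linearCombination ℝ e c) (Submodule.smul_mem _ _
      ((Finsupp.mem_span_image_iff_linearCombination ℝ).2 ⟨c, fun m hm => hc m hm, rfl⟩))
    rw [e1, map_add, Finsupp.linearCombination_single]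
    set v := Finsupp.linearCombination ℝ e c
    have e3 : |b| ≤ 2 * ‖b • e N + v‖ := by
      have : b • e N + v = b • (e N - -b⁻¹ • v) := by simp [smul_add, smul_smul, hb]
      rw [this, norm_smul, Real.norm_eq_abs]
      nlinarith [abs_nonneg b]
    have e4 : ‖v‖ ≤ 3 * ‖b • e N + v‖ := by
      have := norm_sub_le (b • e N + v) (b • e N)
      rw [add_sub_cancel_left, norm_smul, h1, Real.norm_eq_abs] at this
      linarith
    have p : (1 : ℝ) ≤ 3 ^ c.support.card := one_le_pow₀ (by norm_num)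
    have q := norm_nonneg (b • e N + v)
    by_cases hn : n = N
    · subst hn
      rw [Finsupp.add_apply, Finsupp.single_eq_same, Finsupp.notMem_support_iff.1 hN, pow_succ,
        add_zero]
      nlinarith
    · rw [Finsupp.add_apply, Finsupp.single_eq_of_ne hn, pow_succ, zero_add]
      nlinarith [ih n]

/-- hat function -/
noncomputable def Λ (x : ℝ) : ℝ := max (1 - |x|) 0

theorem Λ0 (x : ℝ) : 0 ≤ Λ x := le_max_right _ _

theorem Λz {x : ℝ} (h : 1 ≤ |x|) : Λ x = 0 := max_eq_right (by linarith)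

theorem Λl (x y : ℝ) : |Λ x - Λ y| ≤ min 1 |x - y| := by
  unfold Λ
  refine le_min ?_ ((abs_max_sub_max_le_abs _ _ _).trans ?_)
  · have := abs_nonneg x
    have := abs_nonneg y
    rw [abs_le]
    constructor <;> simp only [max_def] <;> split_ifs <;> linarith
  · rw [sub_sub_sub_cancel_left, abs_sub_comm x]
    exact abs_abs_sub_abs_le_abs_sub _ _

theorem Λ1 {x : ℝ} (h0 : 0 ≤ x) (h1 : x ≤ 1) : Λ x = 1 - x ∧ Λ (x - 1) = x := by
  rw [Λ, Λ, abs_of_nonneg h0, abs_of_nonpos (by linarith), max_eq_left (by linarith),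
    max_eq_left (by linarith)]
  exact ⟨rfl, by ring⟩

theorem Λ2 (y : ℝ) : Λ y + Λ (y - 1) ≤ 1 := by
  simp only [Λ, max_def, abs_eq_max_neg]
  split_ifs <;> linarith

theorem Λ3 {x y : ℝ} (h0 : 0 ≤ x) (h1 : x ≤ 1) (h : x ≤ y) :
    min 1 (y - x) ≤ 2 * (Λ x - Λ y) + (Λ (x - 1) - Λ (y - 1)) := by
  rw [(Λ1 h0 h1).1, (Λ1 h0 h1).2]
  have a := min_le_left 1 (y - x)
  have b := min_le_right 1 (y - x)
  rcases le_total y 1 with h2 | h2
  · rw [(Λ1 (h0.trans h) h2).1, (Λ1 (h0.trans h) h2).2]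
    linarith
  rw [Λz (le_abs.2 (Or.inl h2))]
  rcases le_total y 2 with h3 | h3
  · rw [(Λ1 (x := y - 1) (by linarith) (by linarith)).1]
    linarith
  · rw [Λz (x := y - 1) (le_abs.2 (Or.inl (by linarith)))]
    linarith

theorem cone {s s' τ τ' ε : ℝ} (hs : 0 ≤ s) (hs' : 0 ≤ s') (h : 0 ≤ τ) (h' : 0 ≤ τ')
    (H : ∀ n : ℕ, |s * Λ (τ - n) - s' * Λ (τ' - n)| ≤ ε) :
    |s - s'| ≤ 9 * ε ∧ min s s' * min 1 |τ - τ'| ≤ 9 * ε := by
  have key : ∀ {s s' τ τ' : ℝ}, 0 ≤ s' → 0 ≤ τ →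
      (∀ n : ℕ, |s * Λ (τ - n) - s' * Λ (τ' - n)| ≤ ε) → s - s' ≤ 2 * ε := by
    intro s s' τ τ' hs' h H
    have a1 := Nat.floor_le h
    have a2 := Nat.lt_floor_add_one τ
    have b1 := (abs_le.1 (H ⌊τ⌋₊)).2
    have b2 := (abs_le.1 (H (⌊τ⌋₊ + 1))).2
    push_cast at b2
    have c1 := Λ1 (x := τ - ⌊τ⌋₊) (by linarith) (by linarith)
    have c2 := mul_le_mul_of_nonneg_left (Λ2 (τ' - ⌊τ⌋₊)) hs'
    rw [← sub_sub, ← sub_sub, c1.2] at b2
    rw [c1.1] at b1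
    linarith
  have H' : ∀ n : ℕ, |s' * Λ (τ' - n) - s * Λ (τ - n)| ≤ ε := fun n => by
    rw [abs_sub_comm]
    exact H n
  have e0 : 0 ≤ ε := (abs_nonneg _).trans (H 0)
  refine ⟨abs_le.2 ⟨by linarith [key hs h' H'], by linarith [key hs' h H]⟩, ?_⟩
  wlog hh : τ ≤ τ' generalizing s s' τ τ'
  · rw [min_comm s, abs_sub_comm]
    exact this hs' hs h' h H' H (le_of_not_ge hh)
  have k := key hs h' H'
  have a1 := Nat.floor_le h
  have a2 := Nat.lt_floor_add_one τ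
  have d : ∀ n : ℕ, min s s' * (Λ (τ - n) - Λ (τ' - n)) ≤ 3 * ε := fun n => by
    have b := (abs_le.1 (H n)).2
    have := Λ0 (τ - n)
    have := Λ0 (τ' - n)
    have : Λ (τ' - n) ≤ 1 := max_le (by linarith [abs_nonneg (τ' - n)]) zero_le_one
    rcases le_total s s' with q | q
    · rw [min_eq_left q]
      nlinarith
    · rw [min_eq_right q]
      nlinarith
  have d1 := d ⌊τ⌋₊
  have d2 := d (⌊τ⌋₊ + 1)
  push_cast at d2
  have c := mul_le_mul_of_nonneg_left (Λ3 (x := τ - ⌊τ⌋₊) (y := τ' - ⌊τ⌋₊) (by linarith)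
    (by linarith) (by linarith)) (le_min hs hs')
  rw [← sub_sub, ← sub_sub] at d2
  rw [sub_sub_sub_cancel_right] at c
  rw [abs_sub_comm, abs_of_nonneg (sub_nonneg.2 hh)]
  linarith

theorem Λs {θ : ℝ} (h : 0 ≤ θ) {n : ℕ} (hn : Λ (θ - n) ≠ 0) : n ∈ ({⌊θ⌋₊, ⌊θ⌋₊ + 1} : Finset ℕ) := by
  have := abs_lt.1 (lt_of_not_ge fun h => hn (Λz h))
  have a1 : ⌊θ⌋₊ < n + 1 := (Nat.floor_lt h).2 (by push_cast; linarith)
  have a2 : n < ⌊θ⌋₊ + 1 + 1 := by
    have : (n : ℝ) < ⌊θ⌋₊ + 1 + 1 := by linarith [Nat.lt_floor_add_one θ]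
    exact_mod_cast this
  simp only [Finset.mem_insert, Finset.mem_singleton]
  omega

theorem fan (h : ¬FiniteDimensional ℝ Z) : ∃ L > (0 : ℝ), ∃ (Γ : ℝ → Z) (s τ : Z → ℝ),
    (∀ x, 0 ≤ s x) ∧ (∀ x, 0 ≤ τ x) ∧ (∀ θ, ‖Γ θ‖ ≤ 2) ∧
    (∀ θ θ', ‖Γ θ - Γ θ'‖ ≤ 4 * min 1 |θ - θ'|) ∧
    (∀ x y, |s x - s y| ≤ L * ‖x - y‖ ∧ min (s x) (s y) * min 1 |τ x - τ y| ≤ L * ‖x - y‖) ∧
    ∀ x, ∀ R ≥ 0, ∀ θ ≥ 0, |s x - R| ≤ L * ‖x - R • Γ θ‖ ∧
      min (s x) R * min 1 |τ x - θ| ≤ L * ‖x - R • Γ θ‖ := by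
  obtain ⟨e, h1, h2⟩ := seq h
  set E := Finsupp.linearCombination ℝ e
  have h3 := coef h1 h2
  have inj : Function.Injective E := (injective_iff_map_eq_zero E).2 fun c hc =>
    Finsupp.ext fun n => by simpa [E, hc] using h3 c n
  have nE : ∀ (c : ℕ →₀ ℝ) (M : ℝ), (∀ n, |c n| ≤ M) → ‖E c‖ ≤ c.support.card * M := by
    intro c M hM
    rw [Finsupp.linearCombination_apply, Finsupp.sum, ← nsmul_eq_mul]
    refine (norm_sum_le _ _).trans (Finset.sum_le_card_nsmul _ _ _ fun n _ => ?_)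
    rw [norm_smul, h1, mul_one]
    exact hM n
  have c4 : ∀ c c' : ℕ →₀ ℝ, c.support.card ≤ 2 → c'.support.card ≤ 2 →
      (c - c').support.card ≤ 4 := fun c c' a b =>
    (Finset.card_le_card Finsupp.support_sub).trans ((Finset.card_union_le _ _).trans (by omega))
  have ex : ∀ n, ∃ a : Z → ℝ, LipschitzWith 81 a ∧
      EqOn (fun z => Function.invFun E z n) a (E '' {c | c.support.card ≤ 2}) := fun n =>
    LipschitzOnWith.extend_real (LipschitzOnWith.of_dist_le_mul (by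
      rintro _ ⟨c, hc, rfl⟩ _ ⟨c', hc', rfl⟩
      simp only [Function.leftInverse_invFun inj _, dist_eq_norm, ← map_sub]
      refine (h3 (c - c') n).trans (mul_le_mul_of_nonneg_right ?_ (norm_nonneg _))
      exact (pow_le_pow_right₀ (by norm_num) (c4 c c' hc hc')).trans (by norm_num)))
  choose a a1 a2 using ex
  have a3 : ∀ n, ∀ c : ℕ →₀ ℝ, c.support.card ≤ 2 → a n (E c) = c n := fun n c hc => by
    rw [← a2 n ⟨c, hc, rfl⟩]
    simp only [Function.leftInverse_invFun inj _]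
  have a4 : ∀ n x y, a n x ≤ a n y + 81 * ‖x - y‖ := fun n x y => by
    simpa [dist_eq_norm] using (a1 n).le_add_mul x y
  let I : ℕ → Type := fun n => {m // n + 2 ≤ m ∨ m + 2 ≤ n}
  have ne : ∀ n, Nonempty (I n) := fun n => ⟨⟨n + 2, Or.inl le_rfl⟩⟩
  let b : ℕ → Z → ℝ := fun n x => ⨆ m : I n, a m.1 x
  have b1 : ∀ n x (m : I n), a m.1 x ≤ b n x := fun n x m => le_ciSup (f := fun m : I n => a m.1 x)
    ⟨81 * ‖x‖, by
      rintro _ ⟨m, rfl⟩
      have := a4 m.1 x (E 0)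
      rw [a3 _ 0 (by simp)] at this
      simpa using this⟩ m
  have b2 : ∀ n x y, b n x ≤ b n y + 81 * ‖x - y‖ := fun n x y =>
    ciSup_le fun m => (a4 m.1 x y).trans (add_le_add_left (b1 n y m) _)
  let ρ : ℕ → Z → ℝ := fun n x => max (a n x - b n x) 0
  have ρ1 : ∀ n x y, |ρ n x - ρ n y| ≤ 162 * ‖x - y‖ := fun n x y => by
    refine (abs_max_sub_max_le_abs _ _ _).trans (abs_le.2 ⟨?_, ?_⟩) <;>
      linarith [a4 n x y, a4 n y x, b2 n x y, b2 n y x, norm_sub_rev x y]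
  have ρ2 : ∀ x, ∃ s ≥ 0, ∃ τ ≥ 0, ∀ n : ℕ, ρ n x = s * Λ (τ - n) := by
    intro x
    by_cases h0 : ∃ n, ρ n x ≠ 0
    swap
    · exact ⟨0, le_rfl, 0, le_rfl, fun n => by simpa using not_exists.1 h0 n⟩
    classical
    obtain ⟨k, k1, k2⟩ : ∃ k, ρ k x ≠ 0 ∧ ∀ n < k, ρ n x = 0 :=
      ⟨_, Nat.find_spec h0, fun n hn => not_not.1 (Nat.find_min h0 hn)⟩
    have p : 0 < ρ k x := lt_of_le_of_ne (le_max_right _ _) k1.symm
    have q : 0 ≤ ρ (k + 1) x := le_max_right _ _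
    have k3 : ∀ n, k + 2 ≤ n → ρ n x = 0 := fun n hn => max_eq_right (by
      have := b1 k x ⟨n, Or.inl hn⟩
      have := b1 n x ⟨k, Or.inr hn⟩
      have := (lt_max_iff.1 p).resolve_right (lt_irrefl _)
      linarith)
    have u0 : 0 ≤ ρ (k + 1) x / (ρ k x + ρ (k + 1) x) := by positivity
    have u1 : ρ (k + 1) x / (ρ k x + ρ (k + 1) x) ≤ 1 := div_le_one_of_le₀ (by linarith) (by linarith)
    refine ⟨ρ k x + ρ (k + 1) x, by positivity, k + ρ (k + 1) x / (ρ k x + ρ (k + 1) x),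
      by positivity, fun n => ?_⟩
    rcases lt_trichotomy n k with hn | rfl | hn
    · have : (n : ℝ) + 1 ≤ k := by exact_mod_cast hn
      rw [k2 n hn, Λz (le_abs.2 (Or.inl (by linarith))), mul_zero]
    · rw [add_sub_cancel_left, Λ, abs_of_nonneg u0, max_eq_left (by linarith)]
      field_simp
      ring
    rcases (Nat.succ_le_of_lt hn).eq_or_lt with rfl | hn
    · rw [Λ, abs_of_nonpos (by push_cast; linarith), max_eq_left (by push_cast; linarith)]
      push_cast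
      field_simp
      ring
    · have : (k : ℝ) + 2 ≤ n := by exact_mod_cast hn
      rw [k3 n hn, Λz (le_abs.2 (Or.inr (by linarith))), mul_zero]
  choose s s0 τ τ0 ρ2 using ρ2
  let c : ℝ → ℕ →₀ ℝ := fun θ => Finsupp.onFinset {⌊max θ 0⌋₊, ⌊max θ 0⌋₊ + 1}
    (fun n => Λ (max θ 0 - n)) fun n => Λs (le_max_right _ _)
  have c2 : ∀ θ, (c θ).support.card ≤ 2 := fun θ =>
    (Finset.card_le_card Finsupp.support_onFinset_subset).trans Finset.card_le_two
  refine ⟨9 * 162, by norm_num, fun θ => E (c θ), s, τ, s0, τ0, fun θ => ?_, fun θ θ' => ?_,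
    fun x y => ?_, fun x R hR θ hθ => ?_⟩
  · refine (nE _ 1 fun n => ?_).trans (by rw [mul_one]; exact_mod_cast c2 θ)
    exact abs_le.2 ⟨le_trans (by norm_num) (Λ0 _), max_le (by simp) zero_le_one⟩
  · rw [← map_sub]
    refine (nE _ (min 1 |θ - θ'|) fun n => (Λl _ _).trans (min_le_min_left _ ?_)).trans
      (mul_le_mul_of_nonneg_right (by exact_mod_cast c4 _ _ (c2 _) (c2 _)) (by positivity))
    rw [sub_sub_sub_cancel_right]
    exact abs_max_sub_max_le_abs _ _ _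
  · rw [mul_assoc]
    exact cone (s0 x) (s0 y) (τ0 x) (τ0 y) fun n => by rw [← ρ2, ← ρ2]; exact ρ1 n x y
  rw [mul_assoc]
  refine cone (s0 x) hR (τ0 x) hθ fun n => ?_
  have e1 : ∀ m, a m (R • E (c θ)) = R * Λ (θ - m) := fun m => by
    rw [← map_smul, a3 _ _ ((Finset.card_le_card Finsupp.support_smul).trans (c2 θ))]
    simp [c, max_eq_left hθ]
  have e2 : ρ n (R • E (c θ)) = R * Λ (θ - n) := by
    have q := fun m : ℕ => mul_nonneg hR (Λ0 (θ - m))
    by_cases h0 : Λ (θ - n) = 0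
    · obtain ⟨m⟩ := ne n
      exact (max_eq_right (by linarith [b1 n (R • E (c θ)) m, e1 m.1, e1 n, q m.1,
        (by rw [h0, mul_zero] : R * Λ (θ - n) = 0)])).trans (by rw [h0, mul_zero])
    have : ∀ m : I n, a m.1 (R • E (c θ)) = 0 := fun m => by
      rw [e1]
      by_contra hm
      have i1 := Λs hθ h0
      have i2 := Λs hθ (right_ne_zero_of_mul hm)
      have := m.2
      simp only [Finset.mem_insert, Finset.mem_singleton] at i1 i2
      omega
    simp only [ρ, b, this, ciSup_const, sub_zero, e1, max_eq_left (q n)]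
  rw [← ρ2, ← e2]
  exact ρ1 n _ _

end Pool.Agent.H.MP_93c42a_an
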