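import Pool.Agent.H.MP_93c42a_an.A

set_option autoImplicit false

open Set

namespace Pool.Agent.H.MP_93c42a_an

variable {Z : Type*} [NormedAddCommGroup Z] [NormedSpace ℝ Z]

theorem prd {u u' s s' d ε K : ℝ} {G G' : Z} (h1 : |u - u'| ≤ 4 * |s - s'|) (u0 : 0 ≤ u)
    (u0' : 0 ≤ u') (u1 : u ≤ 1) (u1' : u' ≤ 1) (u2 : u ≤ 4 * s) (u2' : u' ≤ 4 * s') (g : ‖G‖ ≤ 2)
    (g' : ‖G'‖ ≤ 2) (hG : ‖G - G'‖ ≤ K * (d + |s - s'|)) (e1 : |s - s'| ≤ ε)
    (e2 : min s s' * d ≤ ε) (hd : 0 ≤ d) (hK : 0 ≤ K) : ‖u • G - u' • G'‖ ≤ (8 + 5 * K) * ε := by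
  wlog h : s ≤ s' generalizing u u' s s' G G'
  · rw [norm_sub_rev]
    rw [abs_sub_comm s] at *
    exact this (by rwa [abs_sub_comm]) u0' u0 u1' u1 u2' u2 g' g (by rwa [norm_sub_rev]) e1
      (by rwa [min_comm]) (le_of_not_ge h)
  rw [min_eq_left h] at e2
  have e : u • G - u' • G' = u • (G - G') + (u - u') • G' := by module
  have a1 := mul_le_mul_of_nonneg_left hG u0
  have a2 := mul_le_mul (h1.trans (mul_le_mul_of_nonneg_left e1 (by norm_num))) g' (norm_nonneg _)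
    (by linarith [abs_nonneg (s - s')])
  have a3 := mul_le_mul_of_nonneg_left (mul_le_mul_of_nonneg_right u2 hd) hK
  have a4 := mul_le_mul_of_nonneg_left (mul_le_mul u1 e1 (abs_nonneg _) zero_le_one) hK
  have a5 := mul_le_mul_of_nonneg_left e2 hK
  rw [e]
  refine (norm_add_le _ _).trans ?_
  rw [norm_smul, norm_smul, Real.norm_of_nonneg u0, Real.norm_eq_abs]
  nlinarith

/-- clamp to `[0, 1]` -/
noncomputable def cl (t : ℝ) : ℝ := max (min t 1) 0

theorem cl0 (t : ℝ) : 0 ≤ cl t := le_max_right _ _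
theorem cl1 (t : ℝ) : cl t ≤ 1 := max_le (min_le_right _ _) zero_le_one
theorem clz {t : ℝ} (h : t ≤ 0) : cl t = 0 := max_eq_right ((min_le_left _ _).trans h)
theorem clo {t : ℝ} (h : 1 ≤ t) : cl t = 1 := by rw [cl, min_eq_right h, max_eq_left zero_le_one]
theorem cle {t u : ℝ} (h : t ≤ u) (hu : 0 ≤ u) : cl t ≤ u := max_le ((min_le_left _ _).trans h) hu
theorem cll (t u : ℝ) : |cl t - cl u| ≤ |t - u| :=
  (abs_max_sub_max_le_abs _ _ _).trans (by simpa using abs_min_sub_min_le_max t 1 u 1)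
theorem cll' (t u : ℝ) : |cl t - cl u| ≤ min 1 |t - u| :=
  le_min (abs_le.2 ⟨by linarith [cl0 t, cl1 u], by linarith [cl1 t, cl0 u]⟩) (cll t u)

theorem ls (h : ¬FiniteDimensional ℝ Z) : ∃ M ≥ (0 : ℝ), ∃ δ > (0 : ℝ), ∃ f : Z → Z,
    (∀ x, ‖f x‖ ≤ 2) ∧ (∀ x y, ‖f x - f y‖ ≤ M * ‖x - y‖) ∧ ∀ x, δ ≤ ‖x - f x‖ := by
  obtain ⟨L, hL, Γ, s, τ, s0, τ0, g1, g2, c1, c2⟩ := fan h
  let θ : Z → ℝ := fun x => max (τ x - 2) 0 + cl (4 * s x - 2) * (min (τ x) 2 + 2)
  have θ0 : ∀ x, 0 ≤ θ x := fun x => add_nonneg (le_max_right _ _)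
    (mul_nonneg (cl0 _) (by linarith [le_min (τ0 x) zero_le_two]))
  let A : Z → ℝ := fun x => (1 - cl (4 * s x - 1)) * (1 - cl (4 * s x) * cl (τ x - 1))
  have l4 : ∀ x y c, |cl (4 * s x - c) - cl (4 * s y - c)| ≤ 4 * |s x - s y| := fun x y c =>
    (cll _ _).trans_eq (by rw [sub_sub_sub_cancel_right, ← mul_sub, abs_mul]; norm_num)
  have A1 : ∀ x, 0 ≤ cl (4 * s x) * cl (τ x - 1) ∧ cl (4 * s x) * cl (τ x - 1) ≤ 1 := fun x =>
    ⟨mul_nonneg (cl0 _) (cl0 _), mul_le_one₀ (cl1 _) (cl0 _) (cl1 _)⟩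
  refine ⟨362 * L, by positivity, 1 / (16 * L), by positivity,
    fun x => A x • Γ 0 + cl (4 * s x - 1) • Γ (θ x), fun x => ?_, fun x y => ?_, fun x => ?_⟩
  · have p := cl0 (4 * s x - 1)
    have q := cl1 (4 * s x - 1)
    have a0 : 0 ≤ A x := mul_nonneg (by linarith) (by linarith [A1 x])
    have a1 : A x ≤ 1 - cl (4 * s x - 1) := mul_le_of_le_one_right (by linarith) (by linarith [A1 x])
    refine (norm_add_le _ _).trans ?_
    rw [norm_smul, norm_smul, Real.norm_of_nonneg a0, Real.norm_of_nonneg p]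
    nlinarith [g1 0, g1 (θ x)]
  · obtain ⟨e1, e2⟩ := c1 x y
    have d0 : 0 ≤ min 1 |τ x - τ y| := by positivity
    have b1 := prd (Z := ℝ) (K := 1) (G := cl (τ x - 1)) (G' := cl (τ y - 1))
      (by simpa using l4 x y 0) (cl0 (4 * s x)) (cl0 (4 * s y)) (cl1 _) (cl1 _)
      (cle le_rfl (by linarith [s0 x])) (cle le_rfl (by linarith [s0 y]))
      (by rw [Real.norm_of_nonneg (cl0 _)]; linarith [cl1 (τ x - 1)])
      (by rw [Real.norm_of_nonneg (cl0 _)]; linarith [cl1 (τ y - 1)])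
      ((cll' _ _).trans (by rw [sub_sub_sub_cancel_right]; linarith [abs_nonneg (s x - s y)]))
      e1 e2 d0 zero_le_one
    have t : |θ x - θ y| ≤ 2 * |τ x - τ y| + 16 * |s x - s y| := by
      have t1 := abs_max_sub_max_le_abs (τ x - 2) (τ y - 2) 0
      have t2 : |min (τ x) 2 - min (τ y) 2| ≤ |τ x - τ y| := by
        simpa using abs_min_sub_min_le_max (τ x) 2 (τ y) 2
      have t3 := mul_le_mul (l4 x y 2) (show |min (τ y) 2 + 2| ≤ 4 by
        rw [abs_of_nonneg (by linarith [le_min (τ0 y) zero_le_two])]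
        linarith [min_le_right (τ y) 2]) (abs_nonneg _) (by positivity)
      have t4 := mul_le_mul ((abs_of_nonneg (cl0 _)).trans_le (cl1 (4 * s x - 2))) t2
        (abs_nonneg _) zero_le_one
      rw [sub_sub_sub_cancel_right] at t1
      rw [← abs_mul] at t3 t4
      simp only [θ, abs_le] at *
      constructor <;> linarith [t1.1, t1.2, t3.1, t3.2, t4.1, t4.2]
    have b2 := prd (K := 64) (l4 x y 1) (cl0 _) (cl0 _) (cl1 _) (cl1 _)
      (cle (by linarith) (by linarith [s0 x])) (cle (by linarith) (by linarith [s0 y]))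
      (g1 (θ x)) (g1 (θ y)) ((g2 _ _).trans (by
        have := min_le_left 1 |θ x - θ y|
        have := min_le_right 1 |θ x - θ y|
        have := abs_nonneg (s x - s y)
        have := abs_nonneg (τ x - τ y)
        rcases le_total 1 |τ x - τ y| with q | q
        · rw [min_eq_left q]
          linarith
        · rw [min_eq_right q]
          linarith)) e1 e2 d0 (by norm_num)
    have b3 : |A x - A y| ≤ 17 * (L * ‖x - y‖) := by
      have e : A x - A y = (cl (4 * s y - 1) - cl (4 * s x - 1)) * (1 - cl (4 * s x) * cl (τ x - 1))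
        + (1 - cl (4 * s y - 1)) * (cl (4 * s y) * cl (τ y - 1) - cl (4 * s x) * cl (τ x - 1)) := by
        simp only [A]
        ring
      rw [e]
      refine (abs_add_le _ _).trans ?_
      rw [abs_mul, abs_mul, abs_sub_comm, abs_sub_comm (cl (4 * s y) * _),
        abs_of_nonneg (sub_nonneg.2 (A1 x).2), abs_of_nonneg (sub_nonneg.2 (cl1 _))]
      rw [smul_eq_mul, smul_eq_mul, Real.norm_eq_abs] at b1
      nlinarith [l4 x y 1, A1 x, cl0 (4 * s y - 1), abs_nonneg (cl (4 * s x - 1) - cl (4 * s y - 1)),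
        abs_nonneg (cl (4 * s x) * cl (τ x - 1) - cl (4 * s y) * cl (τ y - 1))]
    rw [add_sub_add_comm, ← sub_smul]
    refine (norm_add_le _ _).trans ?_
    rw [norm_smul, Real.norm_eq_abs]
    nlinarith [g1 0, abs_nonneg (A x - A y), norm_nonneg (Γ 0)]
  have key : ∀ R ≥ 0, ∀ t ≥ 0, A x • Γ 0 + cl (4 * s x - 1) • Γ (θ x) = R • Γ t →
      (1 / 8 ≤ |s x - R| ∨ 1 ≤ |τ x - t| ∧ (1 / 8 ≤ s x ∨ 1 / 8 ≤ R)) →
      1 / (16 * L) ≤ ‖x - (A x • Γ 0 + cl (4 * s x - 1) • Γ (θ x))‖ := by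
    intro R hR t ht e hh
    obtain ⟨d1, d2⟩ := c2 x R hR t ht
    rw [e, div_le_iff₀ (by positivity)]
    have p : 0 ≤ L * ‖x - R • Γ t‖ := by positivity
    rcases hh with hh | ⟨hh, h'⟩
    · linarith
    rw [min_eq_left hh, mul_one] at d2
    rw [abs_le] at d1
    rcases le_total (s x) R with q | q
    · rw [min_eq_left q] at d2
      rcases h' with h' | h' <;> linarith [d1.1]
    · rw [min_eq_right q] at d2
      rcases h' with h' | h' <;> linarith [d1.2]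
  have := s0 x
  have := τ0 x
  rcases le_total (1 / 2) (s x) with q | q
  · refine key 1 zero_le_one _ (θ0 x) (by simp [A, clo (t := 4 * s x - 1) (by linarith)]) ?_
    rcases le_total (s x) (3 / 4) with q' | q'
    · exact Or.inl (le_abs.2 (Or.inr (by linarith)))
    · refine Or.inr ⟨le_abs.2 (Or.inr ?_), Or.inl (by linarith)⟩
      simp only [θ, clo (t := 4 * s x - 2) (by linarith), max_def, min_def]
      split_ifs <;> linarith
  have z : cl (4 * s x - 2) = 0 := clz (by linarith)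
  rcases le_total (τ x) 2 with q1 | q1
  · have e : θ x = 0 := by simp [θ, z, q1]
    have p := cl0 (4 * s x - 1)
    have a0 : 0 ≤ A x := mul_nonneg (by linarith [cl1 (4 * s x - 1)]) (by linarith [A1 x])
    refine key (A x + cl (4 * s x - 1)) (by linarith) 0 le_rfl (by rw [e, add_smul]) ?_
    rcases le_total (τ x) 1 with q2 | q2
    · refine Or.inl (le_abs.2 (Or.inr ?_))
      simp only [A, clz (t := τ x - 1) (by linarith)]
      linarith
    refine Or.inr ⟨le_abs.2 (Or.inl (by linarith)), (le_total _ _).imp id fun q3 => ?_⟩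
    simp only [A, clz (t := 4 * s x - 1) (by linarith)]
    nlinarith [cle (t := 4 * s x) le_rfl (by linarith), cl1 (τ x - 1), cl0 (4 * s x)]
  have e : θ x = τ x - 2 := by simp [θ, z, q1]
  have o : cl (τ x - 1) = 1 := clo (by linarith)
  rcases le_total (s x) (1 / 4) with q2 | q2
  · have z' : cl (4 * s x - 1) = 0 := clz (by linarith)
    refine key (1 - cl (4 * s x)) (sub_nonneg.2 (cl1 _)) 0 le_rfl (by simp [A, z', o]) ?_
    refine Or.inr ⟨le_abs.2 (Or.inl (by linarith)), (le_total _ _).imp id fun q3 => ?_⟩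
    linarith [cle (t := 4 * s x) le_rfl (by linarith)]
  · refine key _ (cl0 (4 * s x - 1)) _ (θ0 x) (by simp [A, o, clo (t := 4 * s x) (by linarith)]) ?_
    exact Or.inr ⟨le_abs.2 (Or.inl (by linarith)), Or.inl (by linarith)⟩

theorem bs (h : ¬FiniteDimensional ℝ Z) : ∃ M ≥ (0 : ℝ), ∃ R : Z → Z, (∀ x, ‖R x‖ = 1) ∧
    (∀ x y, ‖R x - R y‖ ≤ M * ‖x - y‖) ∧ ∀ x, 1 ≤ ‖x‖ → R x = ‖x‖⁻¹ • x := by
  obtain ⟨M, hM, δ, hδ, f, f1, f2, f3⟩ := ls h
  let g : Z → Z := fun x => x - cl (4 - ‖x‖) • f x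
  have d0 : 0 < min δ 1 := lt_min hδ one_pos
  have g1 : ∀ x, min δ 1 ≤ ‖g x‖ := fun x => by
    rcases le_total ‖x‖ 3 with q | q
    · simp only [g, clo (t := 4 - ‖x‖) (by linarith), one_smul]
      exact (min_le_left _ _).trans (f3 x)
    · refine (min_le_right _ _).trans (le_trans ?_ (norm_sub_norm_le _ _))
      rw [norm_smul, Real.norm_of_nonneg (cl0 _)]
      nlinarith [cl1 (4 - ‖x‖), f1 x, cl0 (4 - ‖x‖)]
  have g2 : ∀ x y, ‖g x - g y‖ ≤ (3 + M) * ‖x - y‖ := fun x y => by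
    have e : g x - g y = x - y - (cl (4 - ‖x‖) • (f x - f y) +
      (cl (4 - ‖x‖) - cl (4 - ‖y‖)) • f y) := by simp only [g]; module
    have a1 : |cl (4 - ‖x‖) - cl (4 - ‖y‖)| ≤ ‖x - y‖ := (cll _ _).trans (by
      rw [sub_sub_sub_cancel_left, abs_sub_comm]; exact abs_norm_sub_norm_le x y)
    rw [e]
    refine (norm_sub_le _ _).trans ((add_le_add_right (norm_add_le _ _) _).trans ?_)
    rw [norm_smul, norm_smul, Real.norm_of_nonneg (cl0 _), Real.norm_eq_abs]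
    nlinarith [mul_le_mul (cl1 (4 - ‖x‖)) (f2 x y) (norm_nonneg _) zero_le_one,
      mul_le_mul a1 (f1 y) (norm_nonneg _) (norm_nonneg _)]
  refine ⟨2 / min δ 1 * ((3 + M) * 4), by positivity,
    fun x => ‖g ((4 : ℝ) • x)‖⁻¹ • g ((4 : ℝ) • x),
    fun x => norm_smul_inv_norm (norm_pos_iff.1 (d0.trans_le (g1 _))), fun x y => ?_,
    fun x hx => ?_⟩
  · have a1 := g2 ((4 : ℝ) • x) ((4 : ℝ) • y)
    rw [← smul_sub, norm_smul, Real.norm_ofNat] at a1
    have a2 := g1 ((4 : ℝ) • x)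
    have a3 := d0.trans_le (g1 ((4 : ℝ) • y))
    beta_reduce
    generalize g ((4 : ℝ) • x) = u, g ((4 : ℝ) • y) = v at *
    have a4 := d0.trans_le a2
    have e : ‖u‖⁻¹ • u - ‖v‖⁻¹ • v = ‖u‖⁻¹ • (u - v + ((‖v‖ - ‖u‖) * ‖v‖⁻¹) • v) := by
      match_scalars <;> field_simp <;> ring
    have a5 : ‖u - v + ((‖v‖ - ‖u‖) * ‖v‖⁻¹) • v‖ ≤ 2 * ‖u - v‖ := by
      refine (norm_add_le _ _).trans ?_
      rw [norm_smul, norm_mul, norm_inv, norm_norm, inv_mul_cancel_right₀ a3.ne', Real.norm_eq_abs,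
        abs_sub_comm]
      linarith [abs_norm_sub_norm_le u v]
    rw [e, norm_smul, norm_inv, norm_norm]
    calc _ ≤ (min δ 1)⁻¹ * (2 * ((3 + M) * (4 * ‖x - y‖))) := by
          gcongr
          exact a5.trans (by gcongr)
      _ = _ := by ring
  · have e : ‖(4 : ℝ) • x‖ = 4 * ‖x‖ := by rw [norm_smul, Real.norm_ofNat]
    simp only [g, e, clz (t := 4 - 4 * ‖x‖) (by linarith), zero_smul, sub_zero, smul_smul]
    congr 1
    field_simp

end Pool.Agent.H.MP_93c42a_an
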