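import Pool.Agent.H.MP_93c42a_an.B

set_option autoImplicit false

open Set Filter Topology

namespace Pool.Agent.H.MP_93c42a_an

variable {X : Type*} [NormedAddCommGroup X] [NormedSpace ℝ X]

theorem scal {M : ℝ} (hM : 0 ≤ M) {R : X → X} (h1 : ∀ x, ‖R x‖ = 1)
    (h2 : ∀ x y, ‖R x - R y‖ ≤ M * ‖x - y‖) (h3 : ∀ x, 1 ≤ ‖x‖ → R x = ‖x‖⁻¹ • x) {r r' : ℝ}
    (hr : 0 < r) (hr' : 0 < r') (z z' : X) :
    ‖r • R (r⁻¹ • z) - r' • R (r'⁻¹ • z')‖ ≤ M * ‖z - z'‖ + (1 + M) * |r - r'| := by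
  wlog h : r ≤ r' generalizing r r' z z'
  · rw [norm_sub_rev, norm_sub_rev z, abs_sub_comm]
    exact this hr' hr z' z (le_of_not_ge h)
  have a1 : r * ‖R (r⁻¹ • z) - R (r⁻¹ • z')‖ ≤ M * ‖z - z'‖ := by
    have := mul_le_mul_of_nonneg_left (h2 (r⁻¹ • z) (r⁻¹ • z')) hr.le
    rw [← smul_sub, norm_smul, Real.norm_of_nonneg (inv_pos.2 hr).le, mul_left_comm,
      mul_inv_cancel_left₀ hr.ne'] at this
    exact this
  have a2 : r * ‖R (r⁻¹ • z') - R (r'⁻¹ • z')‖ ≤ M * (r' - r) := by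
    rcases le_total r' ‖z'‖ with q | q
    · have : ∀ t > 0, t ≤ ‖z'‖ → R (t⁻¹ • z') = ‖z'‖⁻¹ • z' := fun t ht h => by
        have e : ‖t⁻¹ • z'‖ = t⁻¹ * ‖z'‖ := by
          rw [norm_smul, Real.norm_of_nonneg (inv_pos.2 ht).le]
        rw [h3 _ (by rw [e, le_inv_mul_iff₀ ht]; linarith), e, smul_smul]
        congr 1
        field_simp
      rw [this r hr (h.trans q), this r' hr' q, sub_self, norm_zero, mul_zero]
      exact mul_nonneg hM (sub_nonneg.2 h)
    · refine (mul_le_mul_of_nonneg_left (h2 _ _) hr.le).trans ?_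
      have p : 0 ≤ r⁻¹ - r'⁻¹ := sub_nonneg.2 (inv_anti₀ hr h)
      rw [← sub_smul, norm_smul, Real.norm_of_nonneg p, mul_left_comm]
      refine mul_le_mul_of_nonneg_left ((mul_le_mul_of_nonneg_left
        (mul_le_mul_of_nonneg_left q p) hr.le).trans_eq ?_) hM
      field_simp
  have e : r • R (r⁻¹ • z) - r' • R (r'⁻¹ • z') = r • (R (r⁻¹ • z) - R (r⁻¹ • z')) +
      (r • (R (r⁻¹ • z') - R (r'⁻¹ • z')) + (r - r') • R (r'⁻¹ • z')) := by module
  rw [e]
  refine (norm_add_le _ _).trans ((add_le_add_right (norm_add_le _ _) _).trans ?_)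
  rw [norm_smul, norm_smul, norm_smul, h1, Real.norm_of_nonneg hr.le, Real.norm_eq_abs,
    abs_of_nonpos (sub_nonpos.2 h)]
  linarith

theorem main (p : X →L[ℝ] X) (hp : ∀ x, p (p x) = p x)
    (h1 : ¬FiniteDimensional ℝ p.range) (h2 : ¬FiniteDimensional ℝ p.ker) :
    ∃ M ≥ (0 : ℝ), ∃ T : X → X, (∀ x, ‖T x‖ ≤ 3) ∧
      (∀ n ≥ 1, ∀ x y, ‖T^[n] x - T^[n] y‖ ≤ M * ‖x - y‖) ∧ (∀ x, T x ≠ x) ∧
      ∀ ε > 0, ∃ x, ‖x‖ ≤ 3 ∧ ‖x - T x‖ ≤ ε := by
  obtain ⟨L, hL, Γ, s, τ, s0, τ0, g1, g2, c1, c2⟩ := fan h1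
  obtain ⟨M, hM, R, R1, R2, R3⟩ := bs h2
  let π : p.range → p.range := fun y => cl (s y) • Γ (τ y)
  let r : p.range → ℝ := fun y => 1 - cl (s y) * (τ y / (τ y + 1))
  have t1 : ∀ y, 0 ≤ τ y / (τ y + 1) ∧ τ y / (τ y + 1) < 1 := fun y =>
    ⟨div_nonneg (τ0 y) (by linarith [τ0 y]), (div_lt_one (by linarith [τ0 y])).2 (lt_add_one _)⟩
  have r0 : ∀ y, 0 < r y ∧ r y ≤ 1 := fun y => by
    have := t1 y
    have := cl0 (s y)
    have := cl1 (s y)
    constructor <;> simp only [r] <;> nlinarith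
  have fx : ∀ R ≥ 0, ∀ θ ≥ 0, s (R • Γ θ) = R ∧ (R = 0 ∨ τ (R • Γ θ) = θ) := fun R hR θ hθ => by
    obtain ⟨a, b⟩ := c2 (R • Γ θ) R hR θ hθ
    rw [sub_self, norm_zero, mul_zero] at a b
    rw [abs_nonpos_iff, sub_eq_zero] at a
    rw [a, min_self] at b
    refine ⟨a, hR.eq_or_lt.imp Eq.symm fun h => ?_⟩
    have := nonpos_of_mul_nonpos_right b h
    rwa [min_le_iff, or_iff_right (by norm_num), abs_nonpos_iff, sub_eq_zero] at this
  have cc : ∀ t, cl (cl t) = cl t := fun t => by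
    rw [cl.eq_1 (cl t), min_eq_left (cl1 t), max_eq_left (cl0 t)]
  have ππ : ∀ y, π (π y) = π y ∧ r (π y) = r y := fun y => by
    obtain ⟨a, b | b⟩ := fx _ (cl0 (s y)) _ (τ0 y) <;> simp only [π, r] <;> rw [a, cc, b]
    · simp
    · simp
  have l4 : ∀ x y, |cl (s x) - cl (s y)| ≤ 4 * |s x - s y| := fun x y =>
    (cll _ _).trans (by linarith [abs_nonneg (s x - s y)])
  have u4 : ∀ x, cl (s x) ≤ 4 * s x := fun x => cle (by linarith [s0 x]) (by linarith [s0 x])
  have πl : ∀ x y, ‖π x - π y‖ ≤ 28 * (L * ‖x - y‖) := fun x y =>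
    (prd (K := 4) (l4 x y) (cl0 _) (cl0 _) (cl1 _) (cl1 _) (u4 x) (u4 y) (g1 _) (g1 _)
      ((g2 _ _).trans (by linarith [abs_nonneg (s x - s y)])) (c1 x y).1 (c1 x y).2
      (by positivity) (by norm_num)).trans_eq (by norm_num)
  have rl : ∀ x y, |r x - r y| ≤ 13 * (L * ‖x - y‖) := fun x y => by
    have := prd (Z := ℝ) (K := 1) (G := τ x / (τ x + 1)) (G' := τ y / (τ y + 1)) (l4 x y) (cl0 _)
      (cl0 _) (cl1 _) (cl1 _) (u4 x) (u4 y)
      (by rw [Real.norm_of_nonneg (t1 x).1]; linarith [t1 x])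
      (by rw [Real.norm_of_nonneg (t1 y).1]; linarith [t1 y]) (d := min 1 |τ x - τ y|) (by
        rw [one_mul]
        refine le_add_of_le_of_nonneg (le_min (abs_le.2 ⟨by linarith [t1 x, t1 y],
          by linarith [t1 x, t1 y]⟩) ?_) (abs_nonneg _)
        have := τ0 x
        have := τ0 y
        rw [show τ x / (τ x + 1) - τ y / (τ y + 1) = (τ x - τ y) / ((τ x + 1) * (τ y + 1)) by
          field_simp; ring, Real.norm_eq_abs, abs_div]
        exact div_le_self (abs_nonneg _) (le_abs.2 (Or.inl (by nlinarith))))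
      (c1 x y).1 (c1 x y).2 (by positivity) zero_le_one
    simp only [r, sub_sub_sub_cancel_left]
    rw [abs_sub_comm]
    exact this.trans_eq (by norm_num)
  let py : X → p.range := fun x => ⟨p x, x, rfl⟩
  let pz : X → p.ker := fun x => ⟨x - p x, by simp [hp]⟩
  let Q : X → p.ker := fun x => r (py x) • R ((r (py x))⁻¹ • pz x)
  have nQ : ∀ x, ‖Q x‖ = r (py x) := fun x => by
    rw [norm_smul, R1, mul_one, Real.norm_of_nonneg (r0 _).1.le]
  let S : ℝ → X → X := fun σ x => π (py x) + σ • (Q x : X)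
  have fixp : ∀ y : p.range, p y = y := by
    rintro ⟨_, x, rfl⟩
    exact hp x
  have SS : ∀ σ, |σ| = 1 → ∀ x, S (-1) (S σ x) = S (-σ) x := fun σ hσ x => by
    have z : p (Q x) = 0 := (Q x).2
    have e1 : py (S σ x) = π (py x) := Subtype.ext (by simp [py, S, fixp, z])
    have e2 : pz (S σ x) = σ • Q x := Subtype.ext (by simp [pz, S, fixp, z])
    have e3 : ‖(r (py x))⁻¹ • σ • Q x‖ = 1 := by
      rw [norm_smul, norm_smul, nQ, Real.norm_eq_abs σ, hσ, one_mul,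
        Real.norm_of_nonneg (inv_pos.2 (r0 _).1).le, inv_mul_cancel₀ (r0 _).1.ne']
    have e4 : Q (S σ x) = σ • Q x := by
      change r _ • R (_ • _) = _
      rw [e1, e2, (ππ _).2, R3 _ e3.ge, e3, inv_one, one_smul, smul_inv_smul₀ (r0 _).1.ne']
    change (π _ : X) + _ • (Q _ : X) = _
    rw [e1, e4, (ππ _).1]
    simp [S]
  have it : ∀ n x, (S (-1))^[n + 1] x = S ((-1) ^ (n + 1)) x := fun n x => by
    induction n with
    | zero => simp
    | succ n ih => rw [Function.iterate_succ_apply', ih, SS _ (by simp), pow_succ _ (n + 1),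
        mul_neg_one]
  have nS : ∀ σ, |σ| = 1 → ∀ x, ‖S σ x‖ ≤ 3 := fun σ hσ x => by
    refine (norm_add_le _ _).trans ?_
    rw [norm_smul, Real.norm_eq_abs, hσ]
    change ‖π (py x)‖ + 1 * ‖Q x‖ ≤ 3
    rw [nQ, norm_smul, Real.norm_of_nonneg (cl0 _)]
    nlinarith [r0 (py x), g1 (τ (py x)), cl1 (s (py x)), cl0 (s (py x))]
  have d : ∀ x, ‖S 1 x - S (-1) x‖ = 2 * r (py x) := fun x => by
    rw [show S 1 x - S (-1) x = (2 : ℝ) • (Q x : X) by simp only [S]; module, norm_smul, ← nQ]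
    simp
  refine ⟨28 * (L * ‖p‖) + (M * (1 + ‖p‖) + (1 + M) * (13 * (L * ‖p‖))), by positivity, S (-1),
    nS _ (by simp), fun n hn x y => ?_, fun x hx => ?_, fun ε hε => ?_⟩
  · obtain ⟨n, rfl⟩ := Nat.exists_eq_add_of_le' hn
    have a1 : ‖py x - py y‖ ≤ ‖p‖ * ‖x - y‖ := by
      change ‖p x - p y‖ ≤ _
      rw [← map_sub]
      exact p.le_opNorm _
    have a2 : ‖pz x - pz y‖ ≤ (1 + ‖p‖) * ‖x - y‖ := by
      change ‖x - p x - (y - p y)‖ ≤ _
      rw [sub_sub_sub_comm]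
      have : ‖p x - p y‖ ≤ ‖p‖ * ‖x - y‖ := a1
      linarith [norm_sub_le (x - y) (p x - p y)]
    have a3 : ‖Q x - Q y‖ ≤ _ := scal hM R1 R2 R3 (r0 (py x)).1 (r0 (py y)).1 (pz x) (pz y)
    have a4 := mul_le_mul_of_nonneg_left a1 hL.le
    rw [it, it]
    simp only [S]
    rw [add_sub_add_comm, ← smul_sub]
    refine (norm_add_le _ _).trans ?_
    rw [norm_smul, norm_pow, norm_neg, norm_one, one_pow, one_mul]
    change ‖π (py x) - π (py y)‖ + ‖Q x - Q y‖ ≤ _
    nlinarith [πl (py x) (py y), mul_le_mul_of_nonneg_left a2 hM,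
      mul_le_mul_of_nonneg_left (rl (py x) (py y)) (add_nonneg zero_le_one hM),
      mul_le_mul_of_nonneg_left a4 (add_nonneg zero_le_one hM)]
  · have := SS (-1) (by simp) x
    rw [hx, neg_neg] at this
    have e := d x
    rw [← this, sub_self, norm_zero] at e
    linarith [r0 (py x)]
  · obtain ⟨a, b⟩ := fx 1 zero_le_one (2 / ε) (by positivity)
    rw [one_smul] at a b
    refine ⟨S 1 (Γ (2 / ε)), nS _ abs_one _, ?_⟩
    have e : py (Γ (2 / ε)) = Γ (2 / ε) := Subtype.ext (fixp _)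
    rw [SS _ abs_one, d, e]
    simp only [r, a, b.resolve_left one_ne_zero, clo le_rfl]
    rw [show 2 * (1 - 1 * (2 / ε / (2 / ε + 1))) = ε * (2 / (2 + ε)) by field_simp; ring]
    exact mul_le_of_le_one_right hε.le (div_le_one_of_le₀ (by linarith) (by linarith))

theorem hold {M : ℝ} (hM : 0 ≤ M) {T : X → X} (h1 : ∀ x, ‖T x‖ ≤ 3)
    (h2 : ∀ n ≥ 1, ∀ x y, ‖T^[n] x - T^[n] y‖ ≤ M * ‖x - y‖) (h3 : ∀ x, T x ≠ x)
    (h4 : ∀ ε > 0, ∃ x, ‖x‖ ≤ 3 ∧ ‖x - T x‖ ≤ ε) {α : ℝ} (h0 : 0 < α) (h5 : α < 1) :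
    ∃ S : Metric.closedBall (0 : X) 1 → Metric.closedBall (0 : X) 1,
      (∀ n ≥ 1, ∀ x y, ‖(S^[n] x : X) - S^[n] y‖ ≤ ‖(x : X) - y‖ ^ α) ∧ (∀ x, S x ≠ x) ∧
        ⨅ x : Metric.closedBall (0 : X) 1, ‖(x : X) - S x‖ = 0 := by
  set t := (M + 1)⁻¹ ^ (1 - α)⁻¹
  have t0 : 0 < t := by positivity
  have t1 : t ^ (1 - α) = (M + 1)⁻¹ := Real.rpow_inv_rpow (by positivity) (by linarith)
  set ρ := min (1 / 3) (t ^ α / 6)
  have ρ0 : 0 < ρ := by positivity
  have b : ∀ x : X, ‖x‖ ≤ 3 → ρ • x ∈ Metric.closedBall (0 : X) 1 := fun x hx => by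
    rw [mem_closedBall_zero_iff, norm_smul, Real.norm_of_nonneg ρ0.le]
    nlinarith [min_le_left (1 / 3) (t ^ α / 6), norm_nonneg x]
  let S : Metric.closedBall (0 : X) 1 → Metric.closedBall (0 : X) 1 :=
    fun x => ⟨ρ • T (ρ⁻¹ • x), b _ (h1 _)⟩
  have it : ∀ n x, (S^[n] x : X) = ρ • T^[n] (ρ⁻¹ • x) := fun n x => by
    induction n with
    | zero => simp [ρ0.ne']
    | succ n ih => simp only [Function.iterate_succ_apply', S, ih, inv_smul_smul₀ ρ0.ne']
  refine ⟨S, fun n hn x y => ?_, fun x hx => h3 (ρ⁻¹ • x) ?_, ?_⟩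
  · rw [it, it, ← smul_sub, norm_smul, Real.norm_of_nonneg ρ0.le]
    rcases le_total ‖(x : X) - y‖ t with q | q
    · refine (mul_le_mul_of_nonneg_left (h2 n hn _ _) ρ0.le).trans ?_
      rw [← smul_sub, norm_smul, Real.norm_of_nonneg (inv_pos.2 ρ0).le, mul_left_comm,
        mul_inv_cancel_left₀ ρ0.ne']
      have e := Real.rpow_add_of_nonneg (norm_nonneg ((x : X) - y)) (sub_nonneg.2 h5.le) h0.le
      rw [sub_add_cancel, Real.rpow_one] at e
      have a := (Real.rpow_le_rpow (norm_nonneg _) q (sub_nonneg.2 h5.le)).trans_eq t1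
      nth_rw 1 [e]
      rw [← mul_assoc]
      refine mul_le_of_le_one_left (by positivity) ((mul_le_mul_of_nonneg_left a hM).trans ?_)
      exact mul_inv_le_one_of_le₀ (by linarith) (by linarith)
    · obtain ⟨n, rfl⟩ := Nat.exists_eq_add_of_le' hn
      rw [Function.iterate_succ_apply', Function.iterate_succ_apply']
      have a := (norm_sub_le _ _).trans (add_le_add (h1 (T^[n] (ρ⁻¹ • x))) (h1 (T^[n] (ρ⁻¹ • y))))
      nlinarith [Real.rpow_le_rpow t0.le q h0.le, min_le_right (1 / 3) (t ^ α / 6)]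
  · rw [eq_inv_smul_iff₀ ρ0.ne']
    exact congrArg Subtype.val hx
  refine le_antisymm (le_of_forall_pos_le_add fun ε hε => ?_)
    (Real.iInf_nonneg fun _ => norm_nonneg _)
  obtain ⟨x, a, c⟩ := h4 ε hε
  refine (ciInf_le ⟨0, by rintro _ ⟨_, rfl⟩; exact norm_nonneg _⟩ ⟨ρ • x, b x a⟩).trans ?_
  simp only [S, inv_smul_smul₀ ρ0.ne', ← smul_sub, norm_smul, Real.norm_of_nonneg ρ0.le]
  nlinarith [min_le_left (1 / 3) (t ^ α / 6), norm_nonneg (x - T x)]

theorem inf {S : Submodule ℝ X} {v : ℕ → X} (f : ℕ → Module.Dual ℝ X)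
    (h0 : ∀ i j, f i (v j) = if i = j then 1 else 0) (h : ∀ n, v n ∈ S) :
    ¬FiniteDimensional ℝ S := fun _ =>
  Module.Finite.not_linearIndependent_of_infinite (R := ℝ) (fun n => (⟨v n, h n⟩ : S))
    (LinearIndependent.of_comp S.subtype (LinearIndependent.of_pairwise_dual_eq_zero_one v f
      (fun i j hij => by simp [h0, hij]) fun i => by simp [h0]))

theorem unc [CompleteSpace X] (hX : ¬FiniteDimensional ℝ X) {β : Type*}
    (b : UnconditionalSchauderBasis β ℝ X) : ∃ p : X →L[ℝ] X, (∀ x, p (p x) = p x) ∧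
      ¬FiniteDimensional ℝ p.range ∧ ¬FiniteDimensional ℝ p.ker := by
  classical
  have : Infinite β := by
    by_contra hh
    have := not_infinite_iff_finite.1 hh
    refine hX (Module.Finite.of_injective (LinearMap.pi fun i => (b.coord i).toLinearMap)
      ((injective_iff_map_eq_zero _).2 fun x hx => ?_))
    have e := b.expansion x
    simp only [show ∀ i, b.coord i x = 0 from congrFun hx, zero_smul] at e
    exact e.unique hasSum_zero
  obtain ⟨C, hC⟩ := b.exists_norm_proj_le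
  let g := Infinite.natEmbedding β
  let k : ℕ ↪ β := ⟨fun n => g (2 * n), fun m n h => by simpa using h⟩
  have sm : ∀ x, Summable fun n => b.coord (k n) x • b (k n) := fun x =>
    (b.expansion x).summable.comp_injective k.injective
  let p : X →L[ℝ] X := LinearMap.mkContinuous
    { toFun := fun x => ∑' n, b.coord (k n) x • b (k n)
      map_add' := fun x y => by simp only [map_add, add_smul, (sm x).tsum_add (sm y)]
      map_smul' := fun c x => by
        simp only [map_smul, smul_assoc, (sm x).tsum_const_smul c, RingHom.id_apply] } C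
    fun x => le_of_tendsto' (sm x).hasSum.norm fun A => by
      have := (b.proj (A.map k)).le_of_opNorm_le (hC _) x
      rwa [b.proj_apply, Finset.sum_map] at this
  have pa : ∀ x, p x = ∑' n, b.coord (k n) x • b (k n) := fun _ => rfl
  have o : ∀ i j, b.coord (g i) (b (g j)) = if i = j then 1 else 0 := fun i j => by
    simp [b.ortho, Pi.single_apply]
  have p1 : ∀ m, p (b (k m)) = b (k m) := fun m => by
    rw [pa, tsum_eq_single m fun n hn => by simp [b.ortho, hn]]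
    simp [b.ortho]
  refine ⟨p, fun x => ?_, inf (v := fun n => b (k n)) (fun n => b.coord (k n))
    (fun i j => by simp [b.ortho, Pi.single_apply]) fun n => ⟨_, p1 n⟩,
    inf (v := fun n => b (g (2 * n + 1))) (fun n => b.coord (g (2 * n + 1)))
    (fun i j => by simp [o]) fun n => ?_⟩
  · rw [pa x, p.map_tsum (sm x)]
    simp only [map_smul, p1]
  · change ∑' m, b.coord (g (2 * m)) (b (g (2 * n + 1))) • b (k m) = 0
    have : ∀ m, 2 * m ≠ 2 * n + 1 := by omega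
    simp only [o, this, if_false, zero_smul, tsum_zero]

theorem mono (x : ℕ → ℝ) {q : ℕ → ℕ} (hq : Monotone q) (k : ℕ) : ∃ j, ∃ p : ℕ → ℕ, StrictMono p ∧
    p j = q k ∧ ∑ i ∈ Finset.range k, (x (q i) - x (q (i + 1))) ^ 2 =
      ∑ i ∈ Finset.range j, (x (p i) - x (p (i + 1))) ^ 2 := by
  induction k with
  | zero => exact ⟨0, fun i => q 0 + i, fun _ _ h => by simpa using h, rfl, rfl⟩
  | succ k ih =>
    obtain ⟨j, p, h1, h2, h3⟩ := ih
    rcases (hq (Nat.le_succ k)).eq_or_lt with h | h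
    · exact ⟨j, p, h1, h2.trans h, by rw [Finset.sum_range_succ, h3, h]; simp⟩
    refine ⟨j + 1, fun i => if i ≤ j then p i else q (k + 1) + (i - (j + 1)),
      strictMono_nat_of_lt_succ fun i => ?_, by simp, ?_⟩
    · split_ifs with a b b
      · exact h1 (Nat.lt_succ_self i)
      · rw [show i = j by omega, h2]
        simpa using h
      · omega
      · omega
    · rw [Finset.sum_range_succ, Finset.sum_range_succ, h3]
      congr 1
      · exact Finset.sum_congr rfl fun i hi => by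
          have := Finset.mem_range.1 hi
          simp only [if_pos this.le, if_pos (Nat.succ_le_of_lt this)]
      · simp [h2]

end Pool.Agent.H.MP_93c42a_an
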